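import Mathlib
import Pool.Agent.Lib.MP_fe8c60_co.Sh.All

namespace Pool.Agent.Results.MP_fe8c60_co.SharpBend

open Pool.Agent.Lib.MP_fe8c60_co

theorem result : Filter.Tendsto (fun n : ℕ => (maxBend n : ℝ) / (n / Real.logb 2 n))
    Filter.atTop (nhds (1 / 4)) :=
  Sh.all_final

end Pool.Agent.Results.MP_fe8c60_co.SharpBend
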